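import Pool.Agent.N319.LE.Stm
import Pool.Agent.N980.NU.Conv

/-!
Project NSP/LE (helper319): the convection term (CONV, helper966).
-/

open MeasureTheory Set Filter Topology

set_option linter.unusedVariables false

namespace Pool.Agent.N966.LE

open Pool.Agent.H356R3.NS
open Pool.Agent.N980.NU (cc cc_term_summ cc_summ cc_tsum cc_le_mul cc_nonneg cc_comm cc_mono
  norm_Bf_le)
open Pool.Agent.N319.LE

/-! ### Sums -/

theorem cs {ι : Type*} {f g : ι → ℝ} (f0 : ∀ i, 0 ≤ f i) (g0 : ∀ i, 0 ≤ g i)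
    (hf : Summable fun i => f i ^ 2) (hg : Summable fun i => g i ^ 2) :
    (Summable fun i => f i * g i) ∧ ∑' i, f i * g i ≤ √(∑' i, f i ^ 2) * √(∑' i, g i ^ 2) := by
  have h1 : Summable fun i => f i * g i := by
    refine (hf.add hg).of_nonneg_of_le (fun i => mul_nonneg (f0 i) (g0 i)) fun i => ?_
    nlinarith [sq_nonneg (f i - g i), sq_nonneg (f i), sq_nonneg (g i)]
  refine ⟨h1, h1.tsum_le_of_sum_le fun s => ?_⟩
  refine (Real.sum_mul_le_sqrt_mul_sqrt s f g).trans ?_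
  refine mul_le_mul ?_ ?_ (Real.sqrt_nonneg _) (Real.sqrt_nonneg _)
  · exact Real.sqrt_le_sqrt (hf.sum_le_tsum _ fun _ _ => sq_nonneg _)
  · exact Real.sqrt_le_sqrt (hg.sum_le_tsum _ fun _ _ => sq_nonneg _)

theorem summ_int : Summable fun n : ℤ => 1 / (1 + |(n : ℝ)|) ^ 2 := by
  have h : Summable fun n : ℕ => 1 / (1 + (n : ℝ)) ^ 2 := by
    have h1 := (summable_nat_add_iff 1).2 (Real.summable_one_div_nat_pow.2 one_lt_two)
    refine h1.congr fun n => ?_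
    push_cast
    rw [add_comm (n : ℝ) 1]
  refine Summable.of_nat_of_neg ?_ ?_
  · refine h.congr fun n => ?_
    rw [Int.cast_natCast, abs_of_nonneg (Nat.cast_nonneg n)]
  · refine h.congr fun n => ?_
    rw [Int.cast_neg, Int.cast_natCast, abs_neg, abs_of_nonneg (Nat.cast_nonneg n)]

theorem summ_pw : Summable fun k : Fq => 1 / pw k ^ 6 := by
  set g : ℤ → ℝ := fun n => 1 / (1 + |(n : ℝ)|) ^ 2 with hg
  have g0 : ∀ n, 0 ≤ g n := fun n => by rw [hg]; positivity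
  have h2 : Summable fun p : ℤ × ℤ => g p.1 * g p.2 := summ_int.mul_of_nonneg summ_int g0 g0
  have h3 : Summable fun p : ℤ × (ℤ × ℤ) => g p.1 * (g p.2.1 * g p.2.2) :=
    summ_int.mul_of_nonneg h2 g0 fun p => mul_nonneg (g0 _) (g0 _)
  let e : Fq ≃ ℤ × (ℤ × ℤ) :=
    { toFun := fun k => (k 0, k 1, k 2)
      invFun := fun p => ![p.1, p.2.1, p.2.2]
      left_inv := fun k => by funext i; fin_cases i <;> rfl
      right_inv := fun p => rfl }
  have h4 := (e.summable_iff).2 h3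
  refine h4.of_nonneg_of_le (fun k => by have := pw_pos k; positivity) fun k => ?_
  change 1 / pw k ^ 6 ≤ g (k 0) * (g (k 1) * g (k 2))
  have hle : ∀ i, 1 + |(k i : ℝ)| ≤ pw k := fun i => by
    unfold pw l1
    have := Finset.single_le_sum (f := fun i => |(k i : ℝ)|) (fun i _ => abs_nonneg _)
      (Finset.mem_univ i)
    linarith
  have hp : ∀ i, 0 < 1 + |(k i : ℝ)| := fun i => by positivity
  have e1 : g (k 0) * (g (k 1) * g (k 2)) =
      1 / ((1 + |(k 0 : ℝ)|) ^ 2 * ((1 + |(k 1 : ℝ)|) ^ 2 * (1 + |(k 2 : ℝ)|) ^ 2)) := by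
    rw [hg]
    have := (hp 0).ne'
    have := (hp 1).ne'
    have := (hp 2).ne'
    field_simp
  rw [e1]
  have hh : ∀ i, (1 + |(k i : ℝ)|) ^ 2 ≤ pw k ^ 2 := fun i => pow_le_pow_left₀ (hp i).le (hle i) 2
  apply one_div_le_one_div_of_le
  · have := hp 0; have := hp 1; have := hp 2; positivity
  · have e2 : pw k ^ 6 = pw k ^ 2 * (pw k ^ 2 * pw k ^ 2) := by ring
    rw [e2]
    have p2 : (0 : ℝ) ≤ pw k ^ 2 := by have := pw_pos k; positivity
    refine mul_le_mul (hh 0) ?_ (by positivity) p2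
    exact mul_le_mul (hh 1) (hh 2) (by positivity) p2

/-! ### Weighted norms -/

theorem pw_neg (k : Fq) : pw (-k) = pw k := by unfold pw; rw [l1_neg]

section

variable {x y : Fq → C3}

theorem Rsq (hx : Rp x) (m : ℕ) : Summable fun k => (pw k ^ m * ‖x k‖) ^ 2 := by
  obtain ⟨C, hC⟩ := hx (m + 3)
  refine (summ_pw.mul_left (C ^ 2)).of_nonneg_of_le (fun k => sq_nonneg _) fun k => ?_
  have hp := pw_pos k
  have h1 : (pw k ^ m * ‖x k‖) ^ 2 = (pw k ^ (m + 3) * ‖x k‖) ^ 2 * (1 / pw k ^ 6) := by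
    field_simp
    ring
  rw [h1]
  refine mul_le_mul_of_nonneg_right ?_ (by positivity)
  exact pow_le_pow_left₀ (by positivity) (hC k) 2

theorem Rsu (hx : Rp x) (m : ℕ) : Summable fun k => pw k ^ m * ‖x k‖ := by
  obtain ⟨C, hC⟩ := hx (m + 6)
  refine (summ_pw.mul_left C).of_nonneg_of_le (fun k => by have := pw_pos k; positivity) fun k => ?_
  have hp := pw_pos k
  have h1 : pw k ^ m * ‖x k‖ = pw k ^ (m + 6) * ‖x k‖ * (1 / pw k ^ 6) := by
    field_simp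
    ring
  rw [h1]
  exact mul_le_mul_of_nonneg_right (hC k) (by positivity)

theorem Rsn (hx : Rp x) : SN x := by
  have h : Summable fun k => ‖x k‖ := by simpa using (Rsu hx) 0
  exact h

theorem norm_sy_le (x : Fq → C3) (k : Fq) : ‖sy x k‖ ≤ (‖x k‖ + ‖x (-k)‖) / 2 := by
  rw [pi_norm_le_iff_of_nonneg (by positivity)]
  intro i
  unfold sy
  rw [norm_div]
  have h2 : ‖(2 : ℂ)‖ = 2 := by simp
  rw [h2]
  refine div_le_div_of_nonneg_right ?_ (by norm_num)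
  refine (norm_add_le _ _).trans (add_le_add (norm_le_pi_norm _ i) ?_)
  rw [norm_star]
  exact norm_le_pi_norm _ i

theorem Rsy (hx : Rp x) : Rp (sy x) := by
  intro m
  obtain ⟨C, hC⟩ := hx m
  refine ⟨C, fun k => ?_⟩
  have hp : 0 ≤ pw k ^ m := by have := pw_pos k; positivity
  have h1 := hC k
  have h2 := hC (-k)
  rw [pw_neg] at h2
  calc pw k ^ m * ‖Pool.Agent.N319.LE.sy x k‖ ≤ pw k ^ m * ((‖x k‖ + ‖x (-k)‖) / 2) :=
        mul_le_mul_of_nonneg_left (norm_sy_le x k) hp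
    _ = (pw k ^ m * ‖x k‖ + pw k ^ m * ‖x (-k)‖) / 2 := by ring
    _ ≤ C := by linarith

theorem nn_sy (hx : Rp x) (m : ℕ) : nn m (sy x) ≤ nn m x := by
  have h1 := (Rsq hx) m
  have h2 : Summable fun k => (pw (-k) ^ m * ‖x (-k)‖) ^ 2 :=
    ((Equiv.neg Fq).summable_iff (f := fun k => (pw k ^ m * ‖x k‖) ^ 2)).2 h1
  have e2 : ∑' k, (pw (-k) ^ m * ‖x (-k)‖) ^ 2 = nn m x :=
    (Equiv.neg Fq).tsum_eq (fun k => (pw k ^ m * ‖x k‖) ^ 2)
  have h3 : nn m (sy x) ≤ ∑' k, ((pw k ^ m * ‖x k‖) ^ 2 + (pw (-k) ^ m * ‖x (-k)‖) ^ 2) / 2 := by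
    refine ((Rsq (Rsy hx)) m).tsum_le_tsum (fun k => ?_) ((h1.add h2).div_const 2)
    rw [pw_neg]
    have hp : 0 ≤ pw k ^ m := by have := pw_pos k; positivity
    have h4 := mul_le_mul_of_nonneg_left (norm_sy_le x k) hp
    have h5 := pow_le_pow_left₀ (mul_nonneg hp (norm_nonneg _)) h4 2
    refine h5.trans ?_
    nlinarith [sq_nonneg (pw k ^ m * ‖x k‖ - pw k ^ m * ‖x (-k)‖)]
  refine h3.trans (le_of_eq ?_)
  rw [tsum_div_const, h1.tsum_add h2, e2]
  unfold nn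
  ring

theorem nn_nonneg (m : ℕ) (x : Fq → C3) : 0 ≤ nn m x := tsum_nonneg fun _ => sq_nonneg _

theorem sy_sym (x : Fq → C3) : Sym (sy x) := by
  intro k i
  unfold sy
  rw [neg_neg]
  simp [add_comm]

theorem sy_add (x x' : Fq → C3) : sy (x + x') = sy x + sy x' := by
  funext k i
  simp only [sy, Pi.add_apply, star_add]
  ring

theorem sy_smul (r : ℝ) (x : Fq → C3) : sy (r • x) = r • sy x := by
  funext k i
  simp only [sy, Pi.smul_apply, Complex.real_smul, star_mul', Complex.star_def,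
    Complex.conj_ofReal]
  ring

theorem cv_smul_left (r : ℝ) (x y : Fq → C3) (k : Fq) (i j : Fin 3) :
    cv (r • x) y k i j = r * cv x y k i j := by
  unfold cv
  rw [← tsum_mul_left]
  refine tsum_congr fun l => ?_
  simp only [Pi.smul_apply, Complex.real_smul]
  ring

theorem cv_smul_right (r : ℝ) (x y : Fq → C3) (k : Fq) (i j : Fin 3) :
    cv x (r • y) k i j = r * cv x y k i j := by
  unfold cv
  rw [← tsum_mul_left]
  refine tsum_congr fun l => ?_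
  simp only [Pi.smul_apply, Complex.real_smul]
  ring

theorem Bf_smul_left (r : ℝ) (x y : Fq → C3) : Bf (r • x) y = r • Bf x y := by
  funext k i
  simp only [Bf, cv_smul_left, Pi.smul_apply, Complex.real_smul, Finset.mul_sum]
  refine Finset.sum_congr rfl fun j _ => Finset.sum_congr rfl fun m _ => ?_
  ring

theorem Bf_smul_right (r : ℝ) (x y : Fq → C3) : Bf x (r • y) = r • Bf x y := by
  funext k i
  simp only [Bf, cv_smul_right, Pi.smul_apply, Complex.real_smul, Finset.mul_sum]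
  refine Finset.sum_congr rfl fun j _ => Finset.sum_congr rfl fun m _ => ?_
  ring

/-- The sum of the norms. -/
theorem sum_norm_sq (hx : Rp x) : (∑' k, ‖x k‖) ^ 2 ≤ (∑' k : Fq, 1 / pw k ^ 6) * nn 3 x := by
  have hS : Summable fun k : Fq => (1 / pw k ^ 3) ^ 2 := by
    refine summ_pw.congr fun k => ?_
    have := pw_pos k
    field_simp
    try ring
  obtain ⟨-, h⟩ := cs (f := fun k : Fq => 1 / pw k ^ 3) (g := fun k => pw k ^ 3 * ‖x k‖)
    (fun k => by have := pw_pos k; positivity) (fun k => by have := pw_pos k; positivity) hS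
    ((Rsq hx) 3)
  have e : ∀ k, 1 / pw k ^ 3 * (pw k ^ 3 * ‖x k‖) = ‖x k‖ := fun k => by
    have := pw_pos k
    field_simp
  simp only [e] at h
  have e2 : ∑' k : Fq, (1 / pw k ^ 3) ^ 2 = ∑' k : Fq, 1 / pw k ^ 6 := by
    refine tsum_congr fun k => ?_
    have := pw_pos k
    field_simp
    try ring
  rw [e2] at h
  have h0 : 0 ≤ ∑' k, ‖x k‖ := tsum_nonneg fun _ => norm_nonneg _
  have h1 := pow_le_pow_left₀ h0 h 2
  rw [mul_pow, Real.sq_sqrt (tsum_nonneg fun k => by have := pw_pos k; positivity),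
    Real.sq_sqrt (tsum_nonneg fun _ => sq_nonneg _)] at h1
  exact h1

end

/-- Young's inequality. -/
theorem young {f g : Fq → ℝ} (f0 : ∀ k, 0 ≤ f k) (g0 : ∀ k, 0 ≤ g k)
    (hf : Summable fun k => f k ^ 2) (hg : Summable g) (F : Finset Fq) :
    ∑ k ∈ F, cc f g k ^ 2 ≤ (∑' k, f k ^ 2) * (∑' k, g k) ^ 2 := by
  have hsub : ∀ k, Summable fun l : Fq => g (k - l) := fun k =>
    ((Equiv.subLeft k).summable_iff (f := g)).2 hg
  have esub : ∀ k, ∑' l : Fq, g (k - l) = ∑' l, g l := fun k => (Equiv.subLeft k).tsum_eq g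
  have h1 : ∀ k, cc f g k ^ 2 ≤ cc (fun k => f k ^ 2) g k * ∑' l, g l := by
    intro k
    have ht := cc_term_summ hf hg (fun _ => sq_nonneg _) g0 k
    have e1 : ∀ l, (f l * √(g (k - l))) ^ 2 = f l ^ 2 * g (k - l) := fun l => by
      rw [mul_pow, Real.sq_sqrt (g0 _)]
    have e2 : ∀ l, √(g (k - l)) ^ 2 = g (k - l) := fun l => Real.sq_sqrt (g0 _)
    obtain ⟨-, h⟩ := cs (f := fun l => f l * √(g (k - l))) (g := fun l => √(g (k - l)))
      (fun l => mul_nonneg (f0 _) (Real.sqrt_nonneg _)) (fun l => Real.sqrt_nonneg _)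
      (by simp only [e1]; exact ht) (by simp only [e2]; exact hsub k)
    simp only [e1, e2] at h
    have e3 : ∀ l, f l * √(g (k - l)) * √(g (k - l)) = f l * g (k - l) := fun l => by
      rw [mul_assoc, Real.mul_self_sqrt (g0 _)]
    simp only [e3] at h
    rw [esub k] at h
    have h0 := cc_nonneg f0 g0 k
    have h5 := pow_le_pow_left₀ h0 h 2
    rw [mul_pow, Real.sq_sqrt (tsum_nonneg fun l => mul_nonneg (sq_nonneg _) (g0 _)),
      Real.sq_sqrt (tsum_nonneg g0)] at h5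
    exact h5
  have hG : 0 ≤ ∑' l, g l := tsum_nonneg g0
  calc ∑ k ∈ F, cc f g k ^ 2 ≤ ∑ k ∈ F, cc (fun k => f k ^ 2) g k * ∑' l, g l :=
        Finset.sum_le_sum fun k _ => h1 k
    _ = (∑ k ∈ F, cc (fun k => f k ^ 2) g k) * ∑' l, g l := by rw [Finset.sum_mul]
    _ ≤ (∑' k, cc (fun k => f k ^ 2) g k) * ∑' l, g l := by
        refine mul_le_mul_of_nonneg_right ?_ hG
        exact (cc_summ hf hg (fun _ => sq_nonneg _) g0).sum_le_tsum _
          fun _ _ => cc_nonneg (fun _ => sq_nonneg _) g0 _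
    _ = (∑' k, f k ^ 2) * (∑' k, g k) ^ 2 := by
        rw [cc_tsum hf hg (fun _ => sq_nonneg _) g0]; ring

theorem pw_add_le (k l : Fq) (s : ℕ) : pw k ^ s ≤ 2 ^ s * (pw l ^ s + pw (k - l) ^ s) := by
  have h1 : pw k ≤ pw l + pw (k - l) := by
    have : l1 k ≤ l1 l + l1 (k - l) := by
      calc l1 k = l1 (l + (k - l)) := by rw [add_sub_cancel]
        _ ≤ _ := l1_add _ _
    unfold pw
    linarith
  have hk := pw_pos k
  have hl := pw_pos l
  have hkl := pw_pos (k - l)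
  rcases le_total (pw l) (pw (k - l)) with h | h
  · calc pw k ^ s ≤ (2 * pw (k - l)) ^ s := pow_le_pow_left₀ hk.le (by linarith) s
      _ = 2 ^ s * pw (k - l) ^ s := mul_pow _ _ _
      _ ≤ _ := by
        refine mul_le_mul_of_nonneg_left ?_ (by positivity)
        have : 0 ≤ pw l ^ s := by positivity
        linarith
  · calc pw k ^ s ≤ (2 * pw l) ^ s := pow_le_pow_left₀ hk.le (by linarith) s
      _ = 2 ^ s * pw l ^ s := mul_pow _ _ _
      _ ≤ _ := by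
        refine mul_le_mul_of_nonneg_left ?_ (by positivity)
        have : 0 ≤ pw (k - l) ^ s := by positivity
        linarith

theorem Bf_le_cc {X Y : Fq → C3} (hX : Rp X) (hY : Rp Y) (s : ℕ) (k : Fq) :
    pw k ^ s * ‖Bf X Y k‖ ≤ C0 * nk k * 2 ^ s *
      (cc (fun k => pw k ^ s * ‖X k‖) (fun k => ‖Y k‖) k +
        cc (fun k => pw k ^ s * ‖Y k‖) (fun k => ‖X k‖) k) := by
  have hp : 0 ≤ pw k ^ s := by have := pw_pos k; positivity
  have h1 := mul_le_mul_of_nonneg_left (norm_Bf_le (Rsn hX) (Rsn hY) k) hp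
  refine h1.trans ?_
  have hn := mul_nonneg C0_pos.le (nk_nonneg k)
  have n0 : ∀ k : Fq, ∀ Z : Fq → C3, 0 ≤ pw k ^ s * ‖Z k‖ := fun k Z => by
    have := pw_pos k
    positivity
  have h2 : pw k ^ s * cc (fun k => ‖X k‖) (fun k => ‖Y k‖) k ≤ 2 ^ s *
      (cc (fun k => pw k ^ s * ‖X k‖) (fun k => ‖Y k‖) k +
        cc (fun k => pw k ^ s * ‖Y k‖) (fun k => ‖X k‖) k) := by
    rw [cc_comm (fun k => pw k ^ s * ‖Y k‖)]
    have s1 := cc_term_summ ((Rsu hX) s) (Rsn hY) (fun k => n0 k X) (fun _ => norm_nonneg _) k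
    have s2 := cc_term_summ (Rsn hX) ((Rsu hY) s) (fun _ => norm_nonneg _) (fun k => n0 k Y) k
    have s0 := cc_term_summ (Rsn hX) (Rsn hY) (fun _ => norm_nonneg _) (fun _ => norm_nonneg _) k
    unfold cc
    rw [← tsum_mul_left, ← s1.tsum_add s2, ← tsum_mul_left]
    refine (s0.mul_left _).tsum_le_tsum (fun l => ?_) ((s1.add s2).mul_left _)
    have h3 := mul_le_mul_of_nonneg_right (pw_add_le k l s)
      (mul_nonneg (norm_nonneg (X l)) (norm_nonneg (Y (k - l))))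
    refine h3.trans (le_of_eq ?_)
    ring
  calc pw k ^ s * (C0 * nk k * cc (fun k => ‖X k‖) (fun k => ‖Y k‖) k)
      = C0 * nk k * (pw k ^ s * cc (fun k => ‖X k‖) (fun k => ‖Y k‖) k) := by ring
    _ ≤ C0 * nk k * (2 ^ s * (cc (fun k => pw k ^ s * ‖X k‖) (fun k => ‖Y k‖) k +
        cc (fun k => pw k ^ s * ‖Y k‖) (fun k => ‖X k‖) k)) := mul_le_mul_of_nonneg_left h2 hn
    _ = _ := by ring

theorem est_aux {X Y : Fq → C3} (hX : Rp X) (hY : Rp Y) (s : ℕ) (F : Finset Fq) :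
    ∑ k ∈ F, (pw k ^ s * ‖Bf X Y k‖) ^ 2 / (1 + nk k ^ 2) ≤
      2 * C0 ^ 2 * (2 ^ s) ^ 2 * (∑' k : Fq, 1 / pw k ^ 6) *
        (nn s X * nn 3 Y + nn 3 X * nn s Y) := by
  set S := ∑' k : Fq, 1 / pw k ^ 6 with hS
  set A : Fq → ℝ := fun k => cc (fun k => pw k ^ s * ‖X k‖) (fun k => ‖Y k‖) k with hA
  set B : Fq → ℝ := fun k => cc (fun k => pw k ^ s * ‖Y k‖) (fun k => ‖X k‖) k with hB
  have n0 : ∀ k : Fq, ∀ Z : Fq → C3, 0 ≤ pw k ^ s * ‖Z k‖ := fun k Z => by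
    have := pw_pos k
    positivity
  have A0 : ∀ k, 0 ≤ A k := cc_nonneg (fun k => n0 k X) (fun _ => norm_nonneg _)
  have B0 : ∀ k, 0 ≤ B k := cc_nonneg (fun k => n0 k Y) (fun _ => norm_nonneg _)
  have hk : ∀ k, (pw k ^ s * ‖Bf X Y k‖) ^ 2 / (1 + nk k ^ 2) ≤
      2 * C0 ^ 2 * (2 ^ s) ^ 2 * (A k ^ 2 + B k ^ 2) := by
    intro k
    have h1 := Bf_le_cc hX hY s k
    have h2 := pow_le_pow_left₀ (mul_nonneg (by have := pw_pos k; positivity) (norm_nonneg _)) h1 2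
    have hd : 0 < 1 + nk k ^ 2 := by positivity
    rw [div_le_iff₀ hd]
    refine h2.trans ?_
    change (C0 * nk k * 2 ^ s * (A k + B k)) ^ 2 ≤ _
    have h3 : (A k + B k) ^ 2 ≤ 2 * (A k ^ 2 + B k ^ 2) := by
      nlinarith [sq_nonneg (A k - B k)]
    have h4 : nk k ^ 2 ≤ 1 + nk k ^ 2 := by linarith
    calc (C0 * nk k * 2 ^ s * (A k + B k)) ^ 2
        = C0 ^ 2 * (2 ^ s) ^ 2 * ((A k + B k) ^ 2 * nk k ^ 2) := by ring
      _ ≤ C0 ^ 2 * (2 ^ s) ^ 2 * ((2 * (A k ^ 2 + B k ^ 2)) * (1 + nk k ^ 2)) := by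
          refine mul_le_mul_of_nonneg_left ?_ (by positivity)
          exact mul_le_mul h3 h4 (by positivity) (by positivity)
      _ = _ := by ring
  have hA2 : ∑ k ∈ F, A k ^ 2 ≤ nn s X * (S * nn 3 Y) := by
    refine (young (fun k => n0 k X) (fun _ => norm_nonneg _) ((Rsq hX) s) (Rsn hY) F).trans ?_
    exact mul_le_mul_of_nonneg_left (sum_norm_sq hY) (nn_nonneg _ _)
  have hB2 : ∑ k ∈ F, B k ^ 2 ≤ nn s Y * (S * nn 3 X) := by
    refine (young (fun k => n0 k Y) (fun _ => norm_nonneg _) ((Rsq hY) s) (Rsn hX) F).trans ?_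
    exact mul_le_mul_of_nonneg_left (sum_norm_sq hX) (nn_nonneg _ _)
  calc ∑ k ∈ F, (pw k ^ s * ‖Bf X Y k‖) ^ 2 / (1 + nk k ^ 2)
      ≤ ∑ k ∈ F, 2 * C0 ^ 2 * (2 ^ s) ^ 2 * (A k ^ 2 + B k ^ 2) :=
        Finset.sum_le_sum fun k _ => hk k
    _ = 2 * C0 ^ 2 * (2 ^ s) ^ 2 * (∑ k ∈ F, A k ^ 2 + ∑ k ∈ F, B k ^ 2) := by
        rw [← Finset.mul_sum, Finset.sum_add_distrib]
    _ ≤ 2 * C0 ^ 2 * (2 ^ s) ^ 2 * (nn s X * (S * nn 3 Y) + nn s Y * (S * nn 3 X)) :=
        mul_le_mul_of_nonneg_left (add_le_add hA2 hB2) (by positivity)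
    _ = _ := by ring

theorem conv_ : S_CONV := by
  refine ⟨⟨?_, ?_, ?_, ?_, ?_, ?_⟩, fun x y => ⟨Bf_sym (sy_sym x) (sy_sym y), fun k => ?_⟩⟩
  · intro x x' y hx hx' hy
    unfold NB
    rw [sy_add, Bf_add_left (Rsn (Rsy hx)) (Rsn (Rsy hx')) (Rsn (Rsy hy))]
  · intro x y y' hx hy hy'
    unfold NB
    rw [sy_add, Bf_add_right (Rsn (Rsy hx)) (Rsn (Rsy hy)) (Rsn (Rsy hy'))]
  · intro r x y _ _
    unfold NB
    rw [sy_smul, Bf_smul_left]
  · intro r x y _ _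
    unfold NB
    rw [sy_smul, Bf_smul_right]
  · intro k
    refine ⟨C0 * nk k, mul_nonneg C0_pos.le (nk_nonneg k), fun x y hx hy => ?_⟩
    have h1 := norm_Bf_le (Rsn (Rsy hx)) (Rsn (Rsy hy)) k
    refine h1.trans ?_
    rw [mul_assoc (C0 * nk k)]
    refine mul_le_mul_of_nonneg_left ?_ (mul_nonneg C0_pos.le (nk_nonneg k))
    have sX : Summable fun l => ‖sy x l‖ ^ 2 := by simpa using (Rsq (Rsy hx)) 0
    have sY : Summable fun l => ‖sy y l‖ ^ 2 := by simpa using (Rsq (Rsy hy)) 0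
    have sY' : Summable fun l => ‖sy y (k - l)‖ ^ 2 :=
      ((Equiv.subLeft k).summable_iff (f := fun l => ‖sy y l‖ ^ 2)).2 sY
    obtain ⟨-, h⟩ := cs (f := fun l => ‖sy x l‖) (g := fun l => ‖sy y (k - l)‖)
      (fun _ => norm_nonneg _) (fun _ => norm_nonneg _) sX sY'
    have eY : ∑' l, ‖sy y (k - l)‖ ^ 2 = ∑' l, ‖sy y l‖ ^ 2 :=
      (Equiv.subLeft k).tsum_eq fun l => ‖sy y l‖ ^ 2
    rw [eY] at h
    refine h.trans ?_
    have n1 : ∑' l, ‖sy x l‖ ^ 2 ≤ nn 0 x := by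
      have := nn_sy hx 0
      simpa [nn] using this
    have n2 : ∑' l, ‖sy y l‖ ^ 2 ≤ nn 0 y := by
      have := nn_sy hy 0
      simpa [nn] using this
    exact mul_le_mul (Real.sqrt_le_sqrt n1) (Real.sqrt_le_sqrt n2) (Real.sqrt_nonneg _)
      (Real.sqrt_nonneg _)
  · intro m
    have hS : 0 ≤ ∑' k : Fq, 1 / pw k ^ 6 := tsum_nonneg fun k => by
      have := pw_pos k
      positivity
    refine ⟨2 * C0 ^ 2 * (2 ^ (3 * (m + 1))) ^ 2 * (∑' k : Fq, 1 / pw k ^ 6), by positivity,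
      fun x y hx hy F => ?_⟩
    refine (est_aux (Rsy hx) (Rsy hy) (3 * (m + 1)) F).trans ?_
    refine mul_le_mul_of_nonneg_left ?_ (by positivity)
    exact add_le_add (mul_le_mul (nn_sy hx _) (nn_sy hy _) (nn_nonneg _ _) (nn_nonneg _ _))
      (mul_le_mul (nn_sy hx _) (nn_sy hy _) (nn_nonneg _ _) (nn_nonneg _ _))
  · exact Bf_div _ _ k

end Pool.Agent.N966.LE

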